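import Pool.Agent.H95.Okamoto.Okam

/-!
# Identities for `okP`: `p_(j+1)' = p_j`, `z p_j' + m p_j^(m) = j p_j`
-/

set_option autoImplicit false

namespace Pool.Agent.H69.OK

open Polynomial OkamotoTP

/-- the term -/
noncomputable def tm (m j k : ℕ) : ℂ[X] :=
  C (1 / ((k.factorial : ℂ) * ((j - m * k).factorial : ℂ))) * X ^ (j - m * k)

theorem okP_eq (m j : ℕ) : okP m j = ∑ k ∈ Finset.range (j / m + 1), tm m j k := rfl

theorem okP_zero (m : ℕ) : okP m 0 = 1 := by
  unfold okP
  simp

theorem der_tm {m j k : ℕ} (hk : m * k ≤ j) : derivative (tm m (j + 1) k) = tm m j k := by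
  unfold tm
  have h : j + 1 - m * k = (j - m * k) + 1 := by omega
  rw [h, derivative_C_mul_X_pow, show j - m * k + 1 - 1 = j - m * k from rfl]
  congr 2
  rw [Nat.factorial_succ]
  have h1 : ((k.factorial : ℕ) : ℂ) ≠ 0 := by exact_mod_cast k.factorial_ne_zero
  have h2 : (((j - m * k).factorial : ℕ) : ℂ) ≠ 0 := by exact_mod_cast (j - m * k).factorial_ne_zero
  have h3 : (((j - m * k : ℕ) : ℂ) + 1) ≠ 0 := Nat.cast_add_one_ne_zero _
  push_cast
  field_simp

theorem der_tm_top {m j k : ℕ} (hk : m * k = j + 1) : derivative (tm m (j + 1) k) = 0 := by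
  unfold tm
  rw [hk, Nat.sub_self]
  simp

theorem der_okP (m : ℕ) (hm : 1 ≤ m) (j : ℕ) : derivative (okP m (j + 1)) = okP m j := by
  rw [okP_eq, okP_eq, derivative_sum]
  have hsub : Finset.range (j / m + 1) ⊆ Finset.range ((j + 1) / m + 1) := by
    intro k hk
    rw [Finset.mem_range] at hk ⊢
    have := Nat.div_le_div_right (c := m) (show j ≤ j + 1 by omega)
    omega
  rw [← Finset.sum_subset hsub (f := fun k => derivative (tm m (j + 1) k))]
  · refine Finset.sum_congr rfl ?_
    intro k hk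
    rw [Finset.mem_range, Nat.lt_succ_iff, Nat.le_div_iff_mul_le (by omega)] at hk
    exact der_tm (by rw [mul_comm]; exact hk)
  · intro k hk hk'
    rw [Finset.mem_range, Nat.lt_succ_iff, Nat.le_div_iff_mul_le (by omega)] at hk
    rw [Finset.mem_range, Nat.lt_succ_iff, Nat.le_div_iff_mul_le (by omega)] at hk'
    exact der_tm_top (by rw [mul_comm]; omega)

theorem der_okP_zero (m : ℕ) : derivative (okP m 0) = 0 := by
  rw [okP_zero]
  simp

/-- the integer version -/
theorem der_okPZ (m : ℕ) (hm : 1 ≤ m) (n : ℤ) : derivative (okPZ m n) = okPZ m (n - 1) := by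
  unfold okPZ
  rcases lt_trichotomy n 0 with h | h | h
  · rw [if_neg (by omega), if_neg (by omega), derivative_zero]
  · subst h
    simp [okP_zero]
  · rw [if_pos h.le, if_pos (by omega)]
    have e : n.toNat = (n - 1).toNat + 1 := by omega
    rw [e, der_okP m hm]

theorem iter_okPZ (m : ℕ) (hm : 1 ≤ m) (n : ℤ) (j : ℕ) : derivative^[j] (okPZ m n) = okPZ m (n - j) := by
  induction j with
  | zero => simp
  | succ j ih =>
    rw [Function.iterate_succ_apply', ih, der_okPZ m hm]
    congr 1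
    push_cast
    ring

theorem okP_ne (m : ℕ) (hm : 1 ≤ m) (j : ℕ) : okP m j ≠ 0 := by
  intro h
  have h1 := iter_okPZ m hm (j : ℤ) j
  have h2 : okPZ m (j : ℤ) = 0 := by
    unfold okPZ
    rw [if_pos (by omega)]
    simpa using h
  rw [h2, iterate_derivative_zero, sub_self] at h1
  unfold okPZ at h1
  rw [if_pos le_rfl] at h1
  have h3 : okP m (Int.toNat 0) = 1 := okP_zero m
  rw [h3] at h1
  exact zero_ne_one h1

theorem X_der_tm (m j k : ℕ) : X * derivative (tm m j k) = C ((j - m * k : ℕ) : ℂ) * tm m j k := by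
  unfold tm
  rw [derivative_C_mul_X_pow]
  rcases Nat.eq_zero_or_pos (j - m * k) with h | h
  · rw [h]
    simp
  · obtain ⟨n, hn⟩ := Nat.exists_eq_succ_of_ne_zero h.ne'
    rw [hn, Nat.succ_eq_add_one, show n + 1 - 1 = n from rfl, C_mul]
    ring

theorem iter_tm (m j k : ℕ) (hk : m * (k + 1) ≤ j) :
    derivative^[m] (tm m j k) = C ((k + 1 : ℕ) : ℂ) * tm m j (k + 1) := by
  unfold tm
  rw [iterate_derivative_C_mul, iterate_derivative_X_pow_eq_C_mul, ← mul_assoc, ← C_mul, ← mul_assoc, ← C_mul]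
  have e : j - m * k - m = j - m * (k + 1) := by rw [mul_add, mul_one]; omega
  rw [e]
  congr 2
  have h0 : m ≤ j - m * k := by rw [mul_add, mul_one] at hk; omega
  have h1 : ((j - m * k).descFactorial m : ℂ) * ((j - m * (k + 1)).factorial : ℂ) = ((j - m * k).factorial : ℂ) := by
    rw [← e]
    have := Nat.factorial_mul_descFactorial h0
    rw [mul_comm]
    exact_mod_cast this
  have h2 : ((k.factorial : ℕ) : ℂ) ≠ 0 := by exact_mod_cast k.factorial_ne_zero
  have h3 : (((j - m * (k + 1)).factorial : ℕ) : ℂ) ≠ 0 := by exact_mod_cast (j - m * (k + 1)).factorial_ne_zero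
  have h4 : (((j - m * k).factorial : ℕ) : ℂ) ≠ 0 := by exact_mod_cast (j - m * k).factorial_ne_zero
  have h5 : ((k : ℂ) + 1) ≠ 0 := Nat.cast_add_one_ne_zero k
  rw [Nat.factorial_succ]
  push_cast
  rw [← h1] at h4 ⊢
  have h6 : (((j - m * k).descFactorial m : ℕ) : ℂ) ≠ 0 := left_ne_zero_of_mul h4
  field_simp

theorem iter_tm_top (m j k : ℕ) (hm : 1 ≤ m) (hk : j < m * (k + 1)) : derivative^[m] (tm m j k) = 0 := by
  unfold tm
  rw [iterate_derivative_C_mul, iterate_derivative_X_pow_eq_C_mul, Nat.descFactorial_of_lt (by rw [mul_add, mul_one] at hk; omega)]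
  simp

theorem B_okP (m : ℕ) (hm : 1 ≤ m) (j : ℕ) :
    X * derivative (okP m j) + C (m : ℂ) * derivative^[m] (okP m j) = C (j : ℂ) * okP m j := by
  rw [okP_eq, derivative_sum, Finset.mul_sum, iterate_derivative_sum, Finset.mul_sum, Finset.mul_sum]
  rw [Finset.sum_range_succ (fun k => C (m : ℂ) * derivative^[m] (tm m j k)),
    iter_tm_top m j (j / m) hm (by
      have := Nat.lt_div_mul_add (a := j) (b := m) (by omega)
      rw [mul_add, mul_one, mul_comm]
      omega), mul_zero, add_zero]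
  have h1 : ∑ k ∈ Finset.range (j / m), C (m : ℂ) * derivative^[m] (tm m j k) =
      ∑ k ∈ Finset.range (j / m + 1), C ((m * k : ℕ) : ℂ) * tm m j k := by
    rw [Finset.sum_range_succ' (fun k => C ((m * k : ℕ) : ℂ) * tm m j k)]
    simp only [mul_zero, Nat.cast_zero, C_0, zero_mul, add_zero]
    refine Finset.sum_congr rfl ?_
    intro k hk
    rw [Finset.mem_range] at hk
    rw [iter_tm m j k (by
      have := (Nat.le_div_iff_mul_le (k := m) (by omega)).mp (show k + 1 ≤ j / m by omega)
      rw [mul_comm]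
      exact this)]
    push_cast
    simp only [C_mul, C_add, map_natCast]
    ring
  rw [h1, ← Finset.sum_add_distrib]
  refine Finset.sum_congr rfl ?_
  intro k hk
  rw [Finset.mem_range, Nat.lt_succ_iff, Nat.le_div_iff_mul_le (by omega)] at hk
  rw [X_der_tm, ← add_mul, ← C_add]
  congr 2
  rw [Nat.cast_sub (by rw [mul_comm]; exact hk)]
  ring

end Pool.Agent.H69.OK
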