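import Mathlib

/-!
# The orders of vanishing of the elements of a finite-dimensional space of polynomials
-/

set_option autoImplicit false

namespace Pool.Agent.H69.OK

open Polynomial

/-- the orders at `z` of the nonzero elements of `V` -/
def ords (z : ℂ) (V : Submodule ℂ ℂ[X]) : Set ℕ := {d | ∃ f ∈ V, f ≠ 0 ∧ f.rootMultiplicity z = d}

theorem rm_eq (z : ℂ) (f : ℂ[X]) : f.rootMultiplicity z = (taylor z f).natTrailingDegree := by
  rw [rootMultiplicity_eq_natTrailingDegree, taylor_apply]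

theorem taylor_ne (z : ℂ) {f : ℂ[X]} (hf : f ≠ 0) : taylor z f ≠ 0 := by
  intro h
  exact hf (taylor_injective z (by rw [h, map_zero]))

theorem co_ne (z : ℂ) {f : ℂ[X]} (hf : f ≠ 0) : (taylor z f).coeff (f.rootMultiplicity z) ≠ 0 := by
  rw [rm_eq]
  exact trailingCoeff_nonzero_iff_nonzero.mpr (taylor_ne z hf)

theorem co_zero (z : ℂ) {f : ℂ[X]} {k : ℕ} (hk : k < f.rootMultiplicity z) : (taylor z f).coeff k = 0 := by
  rw [rm_eq] at hk
  exact coeff_eq_zero_of_lt_natTrailingDegree hk

theorem card_le (z : ℂ) (V : Submodule ℂ ℂ[X]) [FiniteDimensional ℂ V] (s : Finset ℕ) (hs : (s : Set ℕ) ⊆ ords z V) :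
    s.card ≤ Module.finrank ℂ V := by
  have h1 : ∀ d : s, ∃ f : V, (f : ℂ[X]) ≠ 0 ∧ (f : ℂ[X]).rootMultiplicity z = d := by
    intro d
    obtain ⟨f, h1, h2, h3⟩ := hs d.2
    exact ⟨⟨f, h1⟩, h2, h3⟩
  choose f hf0 hfd using h1
  have hli : LinearIndependent ℂ f := by
    rw [linearIndependent_iff']
    intro t g hg
    by_contra hcon
    push Not at hcon
    obtain ⟨i, hi, hgi⟩ := hcon
    have hne : (t.filter (fun i => g i ≠ 0)).Nonempty := ⟨i, Finset.mem_filter.mpr ⟨hi, hgi⟩⟩
    obtain ⟨i0, hi0, hmin⟩ := Finset.exists_min_image (t.filter (fun i => g i ≠ 0)) (fun i : s => (i : ℕ)) hne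
    have hi0' := Finset.mem_filter.mp hi0
    have h2 := congrArg (fun v : V => (taylor z (v : ℂ[X])).coeff (i0 : ℕ)) hg
    simp only [Submodule.coe_sum, Submodule.coe_smul, map_sum, map_smul, finset_sum_coeff, coeff_smul, ZeroMemClass.coe_zero,
      map_zero, coeff_zero] at h2
    rw [Finset.sum_eq_single i0] at h2
    · have h3 := co_ne z (hf0 i0)
      rw [hfd i0] at h3
      rw [smul_eq_mul] at h2
      rcases mul_eq_zero.mp h2 with h4 | h4
      · exact hi0'.2 h4
      · exact h3 h4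
    · intro j hj hji
      by_cases hgj : g j = 0
      · rw [hgj, zero_smul]
      · have h4 := hmin j (Finset.mem_filter.mpr ⟨hj, hgj⟩)
        have h5 : (i0 : ℕ) ≠ (j : ℕ) := fun h => hji (Subtype.ext h.symm)
        have h6 : (i0 : ℕ) < (f j : ℂ[X]).rootMultiplicity z := by
          rw [hfd j]
          exact lt_of_le_of_ne h4 h5
        rw [co_zero z h6, smul_zero]
    · intro h
      exact absurd hi0'.1 h
  have h2 := hli.fintype_card_le_finrank
  rwa [Fintype.card_coe] at h2

theorem ords_finite (z : ℂ) (V : Submodule ℂ ℂ[X]) [FiniteDimensional ℂ V] : (ords z V).Finite := by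
  by_contra h
  obtain ⟨s, hs, hc⟩ := Set.Infinite.exists_subset_card_eq h (Module.finrank ℂ V + 1)
  have := card_le z V s hs
  omega

theorem ords_card (z : ℂ) (V : Submodule ℂ ℂ[X]) [FiniteDimensional ℂ V] :
    (ords_finite z V).toFinset.card = Module.finrank ℂ V := by
  apply le_antisymm
  · exact card_le z V _ (by simp)
  · set s := (ords_finite z V).toFinset with hs
    let φ : V →ₗ[ℂ] (s → ℂ) :=
      { toFun := fun f d => (taylor z (f : ℂ[X])).coeff (d : ℕ)
        map_add' := fun a b => by funext d; simp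
        map_smul' := fun a b => by funext d; simp }
    have hinj : Function.Injective φ := by
      rw [← LinearMap.ker_eq_bot, LinearMap.ker_eq_bot']
      intro f hf
      by_contra hne
      have hne' : (f : ℂ[X]) ≠ 0 := fun h => hne (Subtype.ext h)
      have hmem : (f : ℂ[X]).rootMultiplicity z ∈ s := by
        rw [hs, Set.Finite.mem_toFinset]
        exact ⟨f, f.2, hne', rfl⟩
      exact co_ne z hne' (congrFun hf ⟨_, hmem⟩)
    have h2 := LinearMap.finrank_le_finrank_of_injective hinj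
    rwa [Module.finrank_fintype_fun_eq_card, Fintype.card_coe] at h2

/-- an adapted family: `N = dim V` elements of `V` with the orders in `ords` -/
theorem adapted (z : ℂ) (V : Submodule ℂ ℂ[X]) [FiniteDimensional ℂ V] (N : ℕ) (hN : Module.finrank ℂ V = N) :
    ∃ (D : Finset ℕ) (f g : Fin N → ℂ[X]) (d : Fin N → ℕ), (D : Set ℕ) = ords z V ∧ D.card = N ∧ Function.Injective d ∧
      (∀ i, f i ∈ V) ∧ (∀ i, f i = (X - C z) ^ d i * g i) ∧ (∀ i, (g i).eval z ≠ 0) ∧ ∑ i, d i = ∑ a ∈ D, a := by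
  set D := (ords_finite z V).toFinset with hD
  have hc : D.card = N := by rw [hD, ords_card z V, hN]
  have h1 : ∀ i : Fin N, ∃ f ∈ V, f ≠ 0 ∧ f.rootMultiplicity z = ((D.equivFinOfCardEq hc).symm i : ℕ) := by
    intro i
    exact (Set.Finite.mem_toFinset (ords_finite z V)).mp ((D.equivFinOfCardEq hc).symm i).2
  choose f hfV hf0 hfd using h1
  have h3 : ∀ i : Fin N, ∃ g : ℂ[X], f i = (X - C z) ^ (f i).rootMultiplicity z * g ∧ ¬ (X - C z) ∣ g :=
    fun i => exists_eq_pow_rootMultiplicity_mul_and_not_dvd (f i) (hf0 i) z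
  choose g hg1 hg2 using h3
  refine ⟨D, f, g, fun i => ((D.equivFinOfCardEq hc).symm i : ℕ), by simp [hD], hc, ?_, hfV, ?_, ?_, ?_⟩
  · intro i j hij
    exact (D.equivFinOfCardEq hc).symm.injective (Subtype.ext hij)
  · intro i
    conv_lhs => rw [hg1 i]
    rw [hfd i]
  · intro i h
    exact hg2 i (dvd_iff_isRoot.mpr h)
  · rw [Equiv.sum_comp (D.equivFinOfCardEq hc).symm (fun a : D => (a : ℕ))]
    exact Finset.sum_coe_sort D (fun a => a)

end Pool.Agent.H69.OK
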