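import Pool.Agent.H69.OK.Wr
import Pool.Agent.H69.OK.Ord
import Pool.Agent.H69.OK.Ide

/-!
# The set of orders is closed under subtraction of `3` and of `m`
-/

set_option autoImplicit false

namespace Pool.Agent.H69.OK

open Polynomial OkamotoTP Matrix

/-- the generators -/
noncomputable def qq (m b : ℕ) {N : ℕ} (i : Fin N) : ℂ[X] := okP m (3 * (i : ℕ) + b)

/-- the space -/
noncomputable def VV (m b N : ℕ) : Submodule ℂ ℂ[X] := Submodule.span ℂ (Set.range (qq m b : Fin N → ℂ[X]))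

/-- the operator `z d + m d^m` -/
noncomputable def BB (m : ℕ) : Module.End ℂ ℂ[X] :=
  (LinearMap.mulLeft ℂ (X : ℂ[X])) ∘ₗ (derivative : ℂ[X] →ₗ[ℂ] ℂ[X]) + (m : ℂ) • (derivative : Module.End ℂ ℂ[X]) ^ m

theorem BB_apply (m : ℕ) (f : ℂ[X]) : BB m f = X * derivative f + C (m : ℂ) * derivative^[m] f := by
  unfold BB
  rw [LinearMap.add_apply, LinearMap.smul_apply, Module.End.pow_apply, LinearMap.comp_apply, LinearMap.mulLeft_apply,
    smul_eq_C_mul]

theorem BB_qq {m : ℕ} (hm : 1 ≤ m) (b : ℕ) {N : ℕ} (i : Fin N) :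
    BB m (qq m b i) = ((3 * (i : ℕ) + b : ℕ) : ℂ) • qq m b i := by
  rw [BB_apply, qq, B_okP m hm, smul_eq_C_mul]

theorem qq_li {m : ℕ} (hm : 1 ≤ m) (b N : ℕ) : LinearIndependent ℂ (qq m b : Fin N → ℂ[X]) := by
  refine Module.End.eigenvectors_linearIndependent' (BB m) (fun i : Fin N => ((3 * (i : ℕ) + b : ℕ) : ℂ)) ?_ _ ?_
  · intro i j hij
    have h : 3 * (i : ℕ) + b = 3 * (j : ℕ) + b := Nat.cast_injective hij
    exact Fin.ext (by omega)
  · intro i
    refine ⟨Module.End.mem_eigenspace_iff.mpr (BB_qq hm b i), okP_ne m hm _⟩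

instance (m b N : ℕ) : FiniteDimensional ℂ (VV m b N) := by
  unfold VV
  exact FiniteDimensional.span_of_finite ℂ (Set.finite_range _)

theorem VV_finrank {m : ℕ} (hm : 1 ≤ m) (b N : ℕ) : Module.finrank ℂ (VV m b N) = N := by
  unfold VV
  rw [finrank_span_eq_card (qq_li hm b N), Fintype.card_fin]

theorem VV_B {m : ℕ} (hm : 1 ≤ m) (b N : ℕ) {f : ℂ[X]} (hf : f ∈ VV m b N) :
    X * derivative f + C (m : ℂ) * derivative^[m] f ∈ VV m b N := by
  have h : VV m b N ≤ (VV m b N).comap (BB m) := by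
    unfold VV
    rw [Submodule.span_le]
    rintro _ ⟨i, rfl⟩
    show BB m (qq m b i) ∈ Submodule.span ℂ (Set.range (qq m b : Fin N → ℂ[X]))
    rw [BB_qq hm]
    exact Submodule.smul_mem _ _ (Submodule.subset_span ⟨i, rfl⟩)
  have h1 : BB m f ∈ VV m b N := h hf
  rwa [BB_apply] at h1

theorem VV_T {m : ℕ} (hm : 1 ≤ m) {b : ℕ} (hb : b < 3) (N : ℕ) {f : ℂ[X]} (hf : f ∈ VV m b N) :
    derivative^[3] f ∈ VV m b N := by
  have h : VV m b N ≤ (VV m b N).comap ((derivative : Module.End ℂ ℂ[X]) ^ 3) := by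
    unfold VV
    rw [Submodule.span_le]
    rintro _ ⟨i, rfl⟩
    show ((derivative : Module.End ℂ ℂ[X]) ^ 3) (qq m b i) ∈ Submodule.span ℂ (Set.range (qq m b : Fin N → ℂ[X]))
    rw [Module.End.pow_apply]
    have e : qq m b i = okPZ m ((3 * (i : ℕ) + b : ℕ) : ℤ) := by
      unfold qq okPZ
      rw [if_pos (by omega)]
      rfl
    rw [e, iter_okPZ m hm]
    rcases Nat.eq_zero_or_pos (i : ℕ) with h0 | h0
    · unfold okPZ
      rw [if_neg (by rw [h0]; push_cast; omega)]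
      exact Submodule.zero_mem _
    · have e2 : okPZ m (((3 * (i : ℕ) + b : ℕ) : ℤ) - (3 : ℕ)) = qq m b (⟨(i : ℕ) - 1, by omega⟩ : Fin N) := by
        unfold qq okPZ
        rw [if_pos (by push_cast; omega)]
        congr 1
        simp only
        omega
      rw [e2]
      exact Submodule.subset_span ⟨_, rfl⟩
  have h1 : ((derivative : Module.End ℂ ℂ[X]) ^ 3) f ∈ VV m b N := h hf
  rwa [Module.End.pow_apply] at h1

theorem rm_iter (z : ℂ) {f : ℂ[X]} (hf : f ≠ 0) (k : ℕ) (hk : k ≤ f.rootMultiplicity z) :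
    derivative^[k] f ≠ 0 ∧ (derivative^[k] f).rootMultiplicity z + k = f.rootMultiplicity z := by
  induction k with
  | zero => exact ⟨hf, rfl⟩
  | succ k ih =>
    obtain ⟨h1, h2⟩ := ih (by omega)
    rw [Function.iterate_succ_apply']
    set F := derivative^[k] f with hF
    have h3 : 0 < F.rootMultiplicity z := by omega
    have h4 : F.IsRoot z := (rootMultiplicity_pos h1).mp h3
    have h5 := derivative_rootMultiplicity_of_root h4
    refine ⟨?_, by omega⟩
    intro h6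
    have h7 := natDegree_eq_zero_of_derivative_eq_zero h6
    rw [natDegree_eq_zero] at h7
    obtain ⟨a, ha⟩ := h7
    rw [← ha] at h4
    have h8 : a = 0 := by simpa using h4
    rw [← ha, h8, C_0] at h1
    exact h1 rfl

theorem rm_B (z : ℂ) {m : ℕ} (hm : 2 ≤ m) {f : ℂ[X]} (hf : f ≠ 0) (hd : m ≤ f.rootMultiplicity z) :
    X * derivative f + C (m : ℂ) * derivative^[m] f ≠ 0 ∧
      (X * derivative f + C (m : ℂ) * derivative^[m] f).rootMultiplicity z + m = f.rootMultiplicity z := by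
  obtain ⟨h1, h2⟩ := rm_iter z hf m hd
  obtain ⟨h3, h4⟩ := rm_iter z hf 1 (by omega)
  simp only [Function.iterate_one] at h3 h4
  set d := f.rootMultiplicity z with hdd
  set G := derivative^[m] f with hG
  set e := G.rootMultiplicity z with he
  have hmC : (m : ℂ) ≠ 0 := by
    have : m ≠ 0 := by omega
    exact_mod_cast this
  have h5 : (X - C z) ^ (e + 1) ∣ X * derivative f := by
    refine Dvd.dvd.mul_left ?_ X
    refine dvd_trans (pow_dvd_pow _ ?_) (pow_rootMultiplicity_dvd (derivative f) z)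
    omega
  have h6 : ¬ (X - C z) ^ (e + 1) ∣ C (m : ℂ) * G := by
    intro h
    have h7 : (X - C z) ^ (e + 1) ∣ G := by
      have h8 := Dvd.dvd.mul_left h (C ((m : ℂ)⁻¹))
      rwa [← mul_assoc, ← C_mul, inv_mul_cancel₀ hmC, C_1, one_mul] at h8
    have := (le_rootMultiplicity_iff h1).mpr h7
    omega
  have h7 : ¬ (X - C z) ^ (e + 1) ∣ X * derivative f + C (m : ℂ) * G := by
    intro h
    exact h6 ((dvd_add_right h5).mp h)
  have h8 : X * derivative f + C (m : ℂ) * G ≠ 0 := by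
    intro h
    rw [h] at h7
    exact h7 (dvd_zero _)
  refine ⟨h8, ?_⟩
  have h9 : (X - C z) ^ e ∣ X * derivative f + C (m : ℂ) * G :=
    dvd_add (dvd_trans (pow_dvd_pow _ (by omega)) h5) (Dvd.dvd.mul_left (pow_rootMultiplicity_dvd G z) _)
  have h10 := (le_rootMultiplicity_iff h8).mpr h9
  have h11 : ¬ e + 1 ≤ (X * derivative f + C (m : ℂ) * G).rootMultiplicity z := fun h =>
    h7 ((le_rootMultiplicity_iff h8).mp h)
  omega

theorem wr_change {N : ℕ} (q f : Fin N → ℂ[X]) (hf : ∀ i, f i ∈ Submodule.span ℂ (Set.range q)) :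
    ∃ c : ℂ, wr f = C c * wr q := by
  have h1 : ∀ i, ∃ P : Fin N → ℂ, ∑ k, P k • q k = f i := fun i =>
    (Submodule.mem_span_range_iff_exists_fun ℂ).mp (hf i)
  choose P hP using h1
  refine ⟨(Matrix.of P).det, ?_⟩
  unfold wr
  have e : (Matrix.of fun i j : Fin N => derivative^[(j : ℕ)] (f i)) =
      ((C : ℂ →+* ℂ[X]).mapMatrix (Matrix.of P)) * (Matrix.of fun i j : Fin N => derivative^[(j : ℕ)] (q i)) := by
    ext1 i j
    rw [Matrix.mul_apply, Matrix.of_apply, ← hP i, iterate_derivative_sum]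
    refine Finset.sum_congr rfl ?_
    intro k _
    simp only [RingHom.mapMatrix_apply, Matrix.map_apply, Matrix.of_apply]
    rw [iterate_derivative_smul, smul_eq_C_mul]
  rw [e, Matrix.det_mul, ← RingHom.map_det]

theorem exD {m : ℕ} (hm : 2 ≤ m) (N : ℕ) {b : ℕ} (hb : b < 3) (z : ℂ) :
    wr (qq m b : Fin N → ℂ[X]) ≠ 0 ∧ ∃ D : Finset ℕ, D.card = N ∧ (∀ d ∈ D, 3 ≤ d → d - 3 ∈ D) ∧
      (∀ d ∈ D, m ≤ d → d - m ∈ D) ∧
      (wr (qq m b : Fin N → ℂ[X])).rootMultiplicity z + ∑ i : Fin N, (i : ℕ) = ∑ a ∈ D, a := by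
  have hm1 : 1 ≤ m := by omega
  obtain ⟨D, f, g, d, hD, hc, hinj, hV, hf, hg, hs⟩ := adapted z (VV m b N) N (VV_finrank hm1 b N)
  obtain ⟨h1, h2⟩ := wr_order z f g d hinj hf hg
  obtain ⟨c, hcc⟩ := wr_change (qq m b) f hV
  have hc0 : c ≠ 0 := by
    intro h
    rw [h, C_0, zero_mul] at hcc
    exact h1 hcc
  have hq : wr (qq m b : Fin N → ℂ[X]) ≠ 0 := by
    intro h
    rw [h, mul_zero] at hcc
    exact h1 hcc
  refine ⟨hq, D, hc, ?_, ?_, ?_⟩
  · intro a ha h3
    have ha' : a ∈ ords z (VV m b N) := by rw [← hD]; exact ha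
    obtain ⟨F, hF, hF0, hFa⟩ := ha'
    obtain ⟨h4, h5⟩ := rm_iter z hF0 3 (by omega)
    have h6 : a - 3 ∈ (D : Set ℕ) := by
      rw [hD]
      exact ⟨_, VV_T hm1 hb N hF, h4, by omega⟩
    exact h6
  · intro a ha h3
    have ha' : a ∈ ords z (VV m b N) := by rw [← hD]; exact ha
    obtain ⟨F, hF, hF0, hFa⟩ := ha'
    obtain ⟨h4, h5⟩ := rm_B z hm hF0 (by omega)
    have h6 : a - m ∈ (D : Set ℕ) := by
      rw [hD]
      exact ⟨_, VV_B hm1 b N hF, h4, by omega⟩
    exact h6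
  · rw [← hs, ← h2, hcc, rootMultiplicity_mul (mul_ne_zero (by rwa [Ne, C_eq_zero]) hq), rootMultiplicity_C, zero_add]

end Pool.Agent.H69.OK
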