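import Pool.Agent.H69.OK.Cls

/-!
# The degree of the Wronskian and the number of different roots
-/

set_option autoImplicit false

namespace Pool.Agent.H69.OK

open Polynomial OkamotoTP Matrix

theorem okP_natDegree (m j : ℕ) : (okP m j).natDegree ≤ j := by
  unfold okP
  refine natDegree_sum_le_of_forall_le _ _ ?_
  intro k _
  exact (natDegree_C_mul_X_pow_le _ _).trans (Nat.sub_le _ _)

theorem okP_lead (m : ℕ) (hm : 1 ≤ m) (j : ℕ) : (okP m j).coeff j ≠ 0 := by
  have h : (okP m j).coeff j = 1 / (j.factorial : ℂ) := by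
    unfold okP
    rw [finsetSum_coeff, Finset.sum_eq_single 0]
    · simp
    · intro k hk hk0
      rw [Finset.mem_range, Nat.lt_succ_iff, Nat.le_div_iff_mul_le (by omega)] at hk
      rw [coeff_C_mul_X_pow, if_neg]
      have h1 : 1 ≤ m * k := Nat.one_le_iff_ne_zero.mpr (Nat.mul_ne_zero (by omega) hk0)
      rw [mul_comm] at hk
      omega
    · intro h
      exact absurd (Finset.mem_range.mpr (Nat.succ_pos _)) h
  rw [h]
  exact one_div_ne_zero (by exact_mod_cast j.factorial_ne_zero)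

theorem prod_le {ι : Type} (s : Finset ι) (f : ι → ℂ[X]) (e : ι → ℕ) (h : ∀ i, (f i).natDegree ≤ e i) :
    (∏ i ∈ s, f i).natDegree ≤ ∑ i ∈ s, e i ∧ (∏ i ∈ s, f i).coeff (∑ i ∈ s, e i) = ∏ i ∈ s, (f i).coeff (e i) := by
  classical
  induction s using Finset.induction_on with
  | empty => simp
  | insert a s ha ih =>
    rw [Finset.prod_insert ha, Finset.sum_insert ha, Finset.prod_insert ha]
    refine ⟨natDegree_mul_le.trans (add_le_add (h a) ih.1), ?_⟩
    rw [coeff_mul_add_eq_of_natDegree_le (h a) ih.1, ih.2]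

theorem det_le {N : ℕ} (M : Matrix (Fin N) (Fin N) ℂ[X]) (e : Fin N → ℕ) (h : ∀ i j, (M i j).natDegree ≤ e i) :
    M.det.natDegree ≤ ∑ i, e i ∧ M.det.coeff (∑ i, e i) = (Matrix.of fun i j : Fin N => (M i j).coeff (e i)).det := by
  have hs : ∀ σ : Equiv.Perm (Fin N), ∑ i, e (σ i) = ∑ i, e i := fun σ => Equiv.sum_comp σ e
  constructor
  · rw [Matrix.det_apply]
    refine natDegree_sum_le_of_forall_le _ _ ?_
    intro σ _
    have h1 := (prod_le Finset.univ (fun i => M (σ i) i) (fun i => e (σ i)) (fun i => h _ _)).1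
    rw [hs σ] at h1
    rcases Int.units_eq_one_or (Equiv.Perm.sign σ) with h2 | h2
    · rw [h2, one_smul]
      exact h1
    · rw [h2, Units.neg_smul, one_smul, natDegree_neg]
      exact h1
  · rw [Matrix.det_apply, Matrix.det_apply, finsetSum_coeff]
    refine Finset.sum_congr rfl ?_
    intro σ _
    have h1 := (prod_le Finset.univ (fun i => M (σ i) i) (fun i => e (σ i)) (fun i => h _ _)).2
    rw [hs σ] at h1
    rcases Int.units_eq_one_or (Equiv.Perm.sign σ) with h2 | h2
    · rw [h2, one_smul, one_smul, h1]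
      rfl
    · rw [h2, Units.neg_smul, one_smul, Units.neg_smul, one_smul, coeff_neg, h1]
      rfl

theorem wr_deg (m : ℕ) (hm : 1 ≤ m) (b N : ℕ) :
    (wr (qq m b : Fin N → ℂ[X])).natDegree + ∑ i : Fin N, (i : ℕ) = ∑ i : Fin N, (3 * (i : ℕ) + b) := by
  set M : Matrix (Fin N) (Fin N) ℂ[X] := Matrix.of fun i j => X ^ (j : ℕ) * derivative^[(j : ℕ)] (qq m b i) with hM
  have h1 : (∏ j : Fin N, (X : ℂ[X]) ^ (j : ℕ)) * wr (qq m b : Fin N → ℂ[X]) = M.det := by
    unfold wr
    rw [← Matrix.det_mul_row]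
    rfl
  have hle : ∀ i j : Fin N, (M i j).natDegree ≤ 3 * (i : ℕ) + b := by
    intro i j
    simp only [hM, Matrix.of_apply]
    rcases Nat.lt_or_ge (3 * (i : ℕ) + b) (j : ℕ) with h | h
    · rw [iterate_derivative_eq_zero (show (qq m b i).natDegree < (j : ℕ) from lt_of_le_of_lt (okP_natDegree m _) h),
        mul_zero, natDegree_zero]
      exact Nat.zero_le _
    · refine natDegree_mul_le.trans ?_
      have h2 := natDegree_iterate_derivative (qq m b i) (j : ℕ)
      have h3 : (qq m b i).natDegree ≤ 3 * (i : ℕ) + b := okP_natDegree m _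
      rw [natDegree_X_pow]
      omega
  have hco : ∀ i j : Fin N, (M i j).coeff (3 * (i : ℕ) + b) =
      (qq m b i).coeff (3 * (i : ℕ) + b) * (descPochhammer ℂ (j : ℕ)).eval ((3 * (i : ℕ) + b : ℕ) : ℂ) := by
    intro i j
    simp only [hM, Matrix.of_apply]
    rw [descPochhammer_eval_eq_descFactorial]
    rcases Nat.lt_or_ge (3 * (i : ℕ) + b) (j : ℕ) with h | h
    · rw [iterate_derivative_eq_zero (show (qq m b i).natDegree < (j : ℕ) from lt_of_le_of_lt (okP_natDegree m _) h),
        mul_zero, coeff_zero,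
        Nat.descFactorial_of_lt h, Nat.cast_zero, mul_zero]
    · have e : 3 * (i : ℕ) + b = (3 * (i : ℕ) + b - (j : ℕ)) + (j : ℕ) := by omega
      conv_lhs => rw [e]
      rw [coeff_X_pow_mul, coeff_iterate_derivative, ← e, nsmul_eq_mul, mul_comm]
  obtain ⟨h2, h3⟩ := det_le M (fun i => 3 * (i : ℕ) + b) hle
  have h4 : M.det.coeff (∑ i : Fin N, (3 * (i : ℕ) + b)) ≠ 0 := by
    rw [h3]
    have e : (Matrix.of fun i j : Fin N => (M i j).coeff (3 * (i : ℕ) + b)) =
        Matrix.of fun i j : Fin N => (qq m b i).coeff (3 * (i : ℕ) + b) *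
          (Matrix.of fun (i j : Fin N) => (descPochhammer ℂ (j : ℕ)).eval ((3 * (i : ℕ) + b : ℕ) : ℂ)) i j := by
      ext1 i j
      simp only [Matrix.of_apply]
      exact hco i j
    rw [e, Matrix.det_mul_column]
    refine mul_ne_zero (Finset.prod_ne_zero_iff.mpr (fun i _ => okP_lead m hm _)) ?_
    rw [← Matrix.det_eval_matrixOfPolynomials_eq_det_vandermonde (fun i : Fin N => ((3 * (i : ℕ) + b : ℕ) : ℂ))
      (fun j : Fin N => descPochhammer ℂ (j : ℕ)) (fun j => descPochhammer_natDegree ℂ (j : ℕ))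
      (fun j => monic_descPochhammer ℂ (j : ℕ))]
    rw [Matrix.det_vandermonde_ne_zero_iff]
    intro i j hij
    have h5 : ((3 * (i : ℕ) + b : ℕ) : ℂ) = ((3 * (j : ℕ) + b : ℕ) : ℂ) := hij
    have h6 : 3 * (i : ℕ) + b = 3 * (j : ℕ) + b := Nat.cast_injective h5
    exact Fin.ext (by omega)
  have h5 : M.det.natDegree = ∑ i : Fin N, (3 * (i : ℕ) + b) := le_antisymm h2 (le_natDegree_of_ne_zero h4)
  have h6 : M.det ≠ 0 := by
    intro h
    rw [h, coeff_zero] at h4
    exact h4 rfl
  rw [← h1, Finset.prod_pow_eq_pow_sum] at h5 h6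
  have h7 : wr (qq m b : Fin N → ℂ[X]) ≠ 0 := right_ne_zero_of_mul h6
  rw [natDegree_mul (pow_ne_zero _ X_ne_zero) h7, natDegree_X_pow] at h5
  omega

/-- a nonzero polynomial whose roots have multiplicity at most `K` has at least `deg / K` different roots -/
theorem roots_ge {F : ℂ[X]} {K : ℕ} (h : ∀ z : ℂ, 3 * F.rootMultiplicity z + 1 ≤ K) :
    3 * F.natDegree + F.roots.toFinset.card ≤ K * F.roots.toFinset.card := by
  classical
  have h1 : F.natDegree = ∑ z ∈ F.roots.toFinset, F.rootMultiplicity z := by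
    have h2 := (IsAlgClosed.splits F).natDegree_eq_card_roots
    rw [h2, ← Multiset.toFinset_sum_count_eq]
    exact Finset.sum_congr rfl (fun z _ => count_roots F)
  rw [h1, Finset.mul_sum, Finset.card_eq_sum_ones, ← Finset.sum_add_distrib, Finset.mul_sum]
  refine Finset.sum_le_sum ?_
  intro z _
  rw [mul_one]
  exact h z

end Pool.Agent.H69.OK
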