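import Mathlib

/-!
# The size of a simultaneous core of `3` and `m`

`D` a finite set of naturals closed under `d ↦ d - 3` and `d ↦ d - m`, `3 ∤ m`, `μ = ∑ D - N(N-1)/2`, `N = |D|`:
there are `u + v + w = m` with `3 μ + 1 = u² + v² + w² - uv - vw - wu`.
-/

set_option autoImplicit false

namespace Pool.Agent.H69.OK

theorem down_closed (K : Finset ℕ) (h : ∀ k ∈ K, 1 ≤ k → k - 1 ∈ K) (k : ℕ) : k ∈ K ↔ k < K.card := by
  have h1 : ∀ n k : ℕ, k + n ∈ K → k ∈ K := by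
    intro n
    induction n with
    | zero => intro k hk; exact hk
    | succ n ih =>
      intro k hk
      have h2 := h _ hk (by omega)
      rw [show k + (n + 1) - 1 = k + n by omega] at h2
      exact ih k h2
  have h2 : K ⊆ Finset.range K.card := by
    intro a ha
    have h3 : Finset.range (a + 1) ⊆ K := by
      intro j hj
      rw [Finset.mem_range] at hj
      refine h1 (a - j) j ?_
      rw [show j + (a - j) = a by omega]
      exact ha
    have h4 := Finset.card_le_card h3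
    rw [Finset.card_range] at h4
    rw [Finset.mem_range]
    omega
  have h5 : K = Finset.range K.card := Finset.eq_of_subset_of_card_le h2 (by rw [Finset.card_range])
  conv_lhs => rw [h5]
  exact Finset.mem_range

/-- the residue class `r` of `D` -/
def cl (D : Finset ℕ) (r : ℕ) : Finset ℕ := (D.filter (fun d => d % 3 = r)).image (fun d => d / 3)

theorem mem_cl (D : Finset ℕ) (r : ℕ) (hr : r < 3) (k : ℕ) : k ∈ cl D r ↔ 3 * k + r ∈ D := by
  unfold cl
  rw [Finset.mem_image]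
  constructor
  · rintro ⟨d, hd, rfl⟩
    rw [Finset.mem_filter] at hd
    have : 3 * (d / 3) + r = d := by omega
    rw [this]
    exact hd.1
  · intro h
    exact ⟨3 * k + r, Finset.mem_filter.mpr ⟨h, by omega⟩, by omega⟩

theorem mem_iff {D : Finset ℕ} (h3 : ∀ d ∈ D, 3 ≤ d → d - 3 ∈ D) {r : ℕ} (hr : r < 3) (k : ℕ) :
    3 * k + r ∈ D ↔ k < (cl D r).card := by
  rw [← mem_cl D r hr, down_closed]
  intro k hk hk1
  rw [mem_cl D r hr] at hk ⊢
  have := h3 _ hk (by omega)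
  rwa [show 3 * k + r - 3 = 3 * (k - 1) + r by omega] at this

theorem sum_cl {D : Finset ℕ} (h3 : ∀ d ∈ D, 3 ≤ d → d - 3 ∈ D) {r : ℕ} (hr : r < 3) (F : ℕ → ℕ) :
    ∑ d ∈ D.filter (fun d => d % 3 = r), F d = ∑ k ∈ Finset.range (cl D r).card, F (3 * k + r) := by
  symm
  refine Finset.sum_bij (fun k _ => 3 * k + r) ?_ ?_ ?_ ?_
  · intro k hk
    rw [Finset.mem_filter]
    exact ⟨(mem_iff h3 hr k).mpr (Finset.mem_range.mp hk), by omega⟩
  · intro a _ b _ hab
    omega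
  · intro d hd
    rw [Finset.mem_filter] at hd
    refine ⟨d / 3, ?_, by omega⟩
    rw [Finset.mem_range, ← mem_iff h3 hr]
    have : 3 * (d / 3) + r = d := by omega
    rw [this]
    exact hd.1
  · intro k _
    rfl

theorem sum_split (D : Finset ℕ) (F : ℕ → ℕ) :
    ∑ d ∈ D, F d = ∑ d ∈ D.filter (fun d => d % 3 = 0), F d + ∑ d ∈ D.filter (fun d => d % 3 = 1), F d +
      ∑ d ∈ D.filter (fun d => d % 3 = 2), F d := by
  rw [Finset.sum_filter, Finset.sum_filter, Finset.sum_filter, ← Finset.sum_add_distrib, ← Finset.sum_add_distrib]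
  refine Finset.sum_congr rfl ?_
  intro d _
  have h : d % 3 = 0 ∨ d % 3 = 1 ∨ d % 3 = 2 := by omega
  rcases h with h | h | h <;> simp [h]

theorem gauss (n : ℕ) : 2 * ∑ k ∈ Finset.range n, (k : ℤ) = n * (n - 1) := by
  induction n with
  | zero => simp
  | succ n ih =>
    rw [Finset.sum_range_succ, mul_add, ih]
    push_cast
    ring

theorem gauss3 (n r : ℕ) : 2 * ((∑ k ∈ Finset.range n, (3 * k + r) : ℕ) : ℤ) = 3 * n * (n - 1) + 2 * r * n := by
  have h := gauss n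
  push_cast
  rw [Finset.sum_add_distrib, ← Finset.mul_sum, Finset.sum_const, Finset.card_range, nsmul_eq_mul]
  linarith

/-- the main identity: `2 (∑ D) - N (N - 1) = 2 (x² + x y + y² + x + y)`, `x = a₁ - a₀`, `y = a₂ - a₁` -/
theorem size_xy {D : Finset ℕ} {N μ : ℕ} (hN : D.card = N) (h3 : ∀ d ∈ D, 3 ≤ d → d - 3 ∈ D)
    (hs : μ + ∑ i : Fin N, (i : ℕ) = ∑ a ∈ D, a) {x y : ℤ}
    (hx : x = ((cl D 1).card : ℤ) - (cl D 0).card) (hy : y = ((cl D 2).card : ℤ) - (cl D 1).card) :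
    (μ : ℤ) = x ^ 2 + x * y + y ^ 2 + x + y := by
  have h0 := sum_cl h3 (r := 0) (by norm_num) (fun d => d)
  have h1 := sum_cl h3 (r := 1) (by norm_num) (fun d => d)
  have h2 := sum_cl h3 (r := 2) (by norm_num) (fun d => d)
  have c0 := sum_cl h3 (r := 0) (by norm_num) (fun _ => 1)
  have c1 := sum_cl h3 (r := 1) (by norm_num) (fun _ => 1)
  have c2 := sum_cl h3 (r := 2) (by norm_num) (fun _ => 1)
  have cs := sum_split D (fun _ => 1)
  have ss := sum_split D (fun d => d)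
  simp only [Finset.sum_const, smul_eq_mul, mul_one, Finset.card_range] at c0 c1 c2 cs
  have g0 := gauss3 (cl D 0).card 0
  have g1 := gauss3 (cl D 1).card 1
  have g2 := gauss3 (cl D 2).card 2
  have gN := gauss N
  have e1 : (∑ i : Fin N, (i : ℕ)) = ∑ k ∈ Finset.range N, k := Fin.sum_univ_eq_sum_range (fun k => k) N
  have e2 : ((∑ k ∈ Finset.range N, k : ℕ) : ℤ) = ∑ k ∈ Finset.range N, (k : ℤ) := by push_cast; rfl
  set a0 := (cl D 0).card
  set a1 := (cl D 1).card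
  set a2 := (cl D 2).card
  have hNa : (N : ℤ) = a0 + a1 + a2 := by
    rw [← hN, cs, c0, c1, c2]
    push_cast
    ring
  have hs2 : (μ : ℤ) + ((∑ k ∈ Finset.range N, k : ℕ) : ℤ) =
      ((∑ k ∈ Finset.range a0, (3 * k + 0) : ℕ) : ℤ) + ((∑ k ∈ Finset.range a1, (3 * k + 1) : ℕ) : ℤ) +
        ((∑ k ∈ Finset.range a2, (3 * k + 2) : ℕ) : ℤ) := by
    rw [← e1, ← h0, ← h1, ← h2, ← Nat.cast_add, ← Nat.cast_add, ← Nat.cast_add, ← ss, ← hs]
  rw [e2] at hs2
  have hfin : 2 * (μ : ℤ) = 2 * (x ^ 2 + x * y + y ^ 2 + x + y) := by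
    have h4 : 2 * (μ : ℤ) = (3 * a0 * (a0 - 1) + 2 * (0 : ℕ) * a0) + (3 * a1 * (a1 - 1) + 2 * (1 : ℕ) * a1) +
        (3 * a2 * (a2 - 1) + 2 * (2 : ℕ) * a2) - N * (N - 1) := by
      linarith
    rw [h4, hNa, hx, hy]
    push_cast
    ring
  linarith

theorem core_num {D : Finset ℕ} {N μ m : ℕ} (hN : D.card = N) (hm : ¬ 3 ∣ m) (h3 : ∀ d ∈ D, 3 ≤ d → d - 3 ∈ D)
    (h4 : ∀ d ∈ D, m ≤ d → d - m ∈ D) (hs : μ + ∑ i : Fin N, (i : ℕ) = ∑ a ∈ D, a) :
    ∃ u v w : ℕ, u + v + w = m ∧ 3 * μ + 1 + (u * v + v * w + w * u) = u ^ 2 + v ^ 2 + w ^ 2 := by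
  have hS := size_xy hN h3 hs (x := ((cl D 1).card : ℤ) - (cl D 0).card)
    (y := ((cl D 2).card : ℤ) - (cl D 1).card) rfl rfl
  have m0 := fun k => mem_iff h3 (r := 0) (by norm_num) k
  have m1 := fun k => mem_iff h3 (r := 1) (by norm_num) k
  have m2 := fun k => mem_iff h3 (r := 2) (by norm_num) k
  set a0 := (cl D 0).card
  set a1 := (cl D 1).card
  set a2 := (cl D 2).card
  have hmod : m % 3 = 1 ∨ m % 3 = 2 := by omega
  rcases hmod with hm1 | hm2
  · obtain ⟨q, rfl⟩ : ∃ q, m = 3 * q + 1 := ⟨m / 3, by omega⟩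
    have i1 : a1 ≤ a0 + q := by
      by_contra h
      push Not at h
      have h5 := h4 _ ((m1 (a0 + q)).mpr h) (by omega)
      rw [show 3 * (a0 + q) + 1 - (3 * q + 1) = 3 * a0 + 0 by omega] at h5
      have := (m0 a0).mp h5
      omega
    have i2 : a2 ≤ a1 + q := by
      by_contra h
      push Not at h
      have h5 := h4 _ ((m2 (a1 + q)).mpr h) (by omega)
      rw [show 3 * (a1 + q) + 2 - (3 * q + 1) = 3 * a1 + 1 by omega] at h5
      have := (m1 a1).mp h5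
      omega
    have i3 : a0 ≤ a2 + q + 1 := by
      by_contra h
      push Not at h
      have h5 := h4 _ ((m0 (a2 + q + 1)).mpr h) (by omega)
      rw [show 3 * (a2 + q + 1) + 0 - (3 * q + 1) = 3 * a2 + 2 by omega] at h5
      have := (m2 a2).mp h5
      omega
    refine ⟨a0 + q - a1, a1 + q - a2, a2 + q + 1 - a0, by omega, ?_⟩
    have e1 : ((a0 + q - a1 : ℕ) : ℤ) = a0 + q - a1 := by omega
    have e2 : ((a1 + q - a2 : ℕ) : ℤ) = a1 + q - a2 := by omega
    have e3 : ((a2 + q + 1 - a0 : ℕ) : ℤ) = a2 + q + 1 - a0 := by omega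
    have : ((3 * μ + 1 + ((a0 + q - a1) * (a1 + q - a2) + (a1 + q - a2) * (a2 + q + 1 - a0) +
        (a2 + q + 1 - a0) * (a0 + q - a1)) : ℕ) : ℤ) =
        (((a0 + q - a1) ^ 2 + (a1 + q - a2) ^ 2 + (a2 + q + 1 - a0) ^ 2 : ℕ) : ℤ) := by
      rw [Nat.cast_add, Nat.cast_add, Nat.cast_mul, Nat.cast_add, Nat.cast_add, Nat.cast_mul, Nat.cast_mul, Nat.cast_mul,
        Nat.cast_add, Nat.cast_add, Nat.cast_pow, Nat.cast_pow, Nat.cast_pow, e1, e2, e3, hS]
      push_cast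
      ring
    exact_mod_cast this
  · obtain ⟨q, rfl⟩ : ∃ q, m = 3 * q + 2 := ⟨m / 3, by omega⟩
    have i1 : a2 ≤ a0 + q := by
      by_contra h
      push Not at h
      have h5 := h4 _ ((m2 (a0 + q)).mpr h) (by omega)
      rw [show 3 * (a0 + q) + 2 - (3 * q + 2) = 3 * a0 + 0 by omega] at h5
      have := (m0 a0).mp h5
      omega
    have i2 : a0 ≤ a1 + q + 1 := by
      by_contra h
      push Not at h
      have h5 := h4 _ ((m0 (a1 + q + 1)).mpr h) (by omega)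
      rw [show 3 * (a1 + q + 1) + 0 - (3 * q + 2) = 3 * a1 + 1 by omega] at h5
      have := (m1 a1).mp h5
      omega
    have i3 : a1 ≤ a2 + q + 1 := by
      by_contra h
      push Not at h
      have h5 := h4 _ ((m1 (a2 + q + 1)).mpr h) (by omega)
      rw [show 3 * (a2 + q + 1) + 1 - (3 * q + 2) = 3 * a2 + 2 by omega] at h5
      have := (m2 a2).mp h5
      omega
    refine ⟨a0 + q - a2, a1 + q + 1 - a0, a2 + q + 1 - a1, by omega, ?_⟩
    have e1 : ((a0 + q - a2 : ℕ) : ℤ) = a0 + q - a2 := by omega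
    have e2 : ((a1 + q + 1 - a0 : ℕ) : ℤ) = a1 + q + 1 - a0 := by omega
    have e3 : ((a2 + q + 1 - a1 : ℕ) : ℤ) = a2 + q + 1 - a1 := by omega
    have : ((3 * μ + 1 + ((a0 + q - a2) * (a1 + q + 1 - a0) + (a1 + q + 1 - a0) * (a2 + q + 1 - a1) +
        (a2 + q + 1 - a1) * (a0 + q - a2)) : ℕ) : ℤ) =
        (((a0 + q - a2) ^ 2 + (a1 + q + 1 - a0) ^ 2 + (a2 + q + 1 - a1) ^ 2 : ℕ) : ℤ) := by
      rw [Nat.cast_add, Nat.cast_add, Nat.cast_mul, Nat.cast_add, Nat.cast_add, Nat.cast_mul, Nat.cast_mul, Nat.cast_mul,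
        Nat.cast_add, Nat.cast_add, Nat.cast_pow, Nat.cast_pow, Nat.cast_pow, e1, e2, e3, hS]
      push_cast
      ring
    exact_mod_cast this

/-- the bound -/
theorem core_le {μ m : ℕ} (h : ∃ u v w : ℕ, u + v + w = m ∧ 3 * μ + 1 + (u * v + v * w + w * u) = u ^ 2 + v ^ 2 + w ^ 2) :
    3 * μ + 1 ≤ m ^ 2 := by
  obtain ⟨u, v, w, h1, h2⟩ := h
  subst h1
  nlinarith [Nat.zero_le (u * v), Nat.zero_le (v * w), Nat.zero_le (w * u)]

end Pool.Agent.H69.OK
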