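import Mathlib

/-!
# The order of a Wronskian at a point

If `f_i = (X - z)^(d_i) g_i`, `g_i(z) ≠ 0`, with different `d_i`, the Wronskian of the `f_i` has order
`∑ d_i - N (N - 1) / 2` at `z`.
-/

set_option autoImplicit false

namespace Pool.Agent.H69.OK

open Polynomial Matrix

/-- the Wronskian -/
noncomputable def wr {N : ℕ} (f : Fin N → ℂ[X]) : ℂ[X] :=
  (Matrix.of fun i j : Fin N => derivative^[(j : ℕ)] (f i)).det

/-- the cofactors in `(X - z)^j D^j ((X - z)^d g) = (X - z)^d h_j` -/
noncomputable def hh (z : ℂ) (d : ℕ) (g : ℂ[X]) : ℕ → ℂ[X]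
  | 0 => g
  | j + 1 => C ((d : ℂ) - j) * hh z d g j + (X - C z) * derivative (hh z d g j)

theorem Y_der (z : ℂ) (n : ℕ) :
    (X - C z) * derivative ((X - C z) ^ n) = C (n : ℂ) * (X - C z) ^ n := by
  rcases n with _ | n
  · simp
  · rw [derivative_X_sub_C_pow]
    rw [show n + 1 - 1 = n from rfl]
    ring

theorem hh_spec (z : ℂ) (d : ℕ) (g : ℂ[X]) (j : ℕ) :
    (X - C z) ^ j * derivative^[j] ((X - C z) ^ d * g) = (X - C z) ^ d * hh z d g j := by
  induction j with
  | zero => simp [hh]
  | succ j ih =>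
    rw [Function.iterate_succ_apply']
    set F := derivative^[j] ((X - C z) ^ d * g) with hF
    have h1 := congrArg (fun q => (X - C z) * derivative q) ih
    simp only [derivative_mul] at h1
    have h2 := Y_der z j
    have h3 := Y_der z d
    have e : (X - C z) ^ (j + 1) * derivative F =
        (X - C z) * (derivative ((X - C z) ^ j) * F + (X - C z) ^ j * derivative F) -
          ((X - C z) * derivative ((X - C z) ^ j)) * F := by ring
    rw [e, h1, h2]
    have e2 : (X - C z) * (derivative ((X - C z) ^ d) * hh z d g j + (X - C z) ^ d * derivative (hh z d g j)) =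
        ((X - C z) * derivative ((X - C z) ^ d)) * hh z d g j + (X - C z) ^ (d + 1) * derivative (hh z d g j) := by
      ring
    rw [e2, h3, mul_assoc (C (j : ℂ)), ih]
    show _ = (X - C z) ^ d * (C ((d : ℂ) - j) * hh z d g j + (X - C z) * derivative (hh z d g j))
    rw [C_sub]
    ring

theorem hh_eval (z : ℂ) (d : ℕ) (g : ℂ[X]) (j : ℕ) :
    (hh z d g j).eval z = g.eval z * (descPochhammer ℂ j).eval (d : ℂ) := by
  induction j with
  | zero => simp [hh]
  | succ j ih =>
    show (C ((d : ℂ) - j) * hh z d g j + (X - C z) * derivative (hh z d g j)).eval z = _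
    rw [descPochhammer_succ_right]
    simp only [eval_add, eval_mul, eval_C, eval_sub, eval_X, sub_self, zero_mul, add_zero, ih, eval_natCast]
    ring

theorem wr_order {N : ℕ} (z : ℂ) (f g : Fin N → ℂ[X]) (d : Fin N → ℕ) (hd : Function.Injective d)
    (hf : ∀ i, f i = (X - C z) ^ d i * g i) (hg : ∀ i, (g i).eval z ≠ 0) :
    wr f ≠ 0 ∧ (wr f).rootMultiplicity z + ∑ i : Fin N, (i : ℕ) = ∑ i, d i := by
  set Y : ℂ[X] := X - C z with hY
  set H : Matrix (Fin N) (Fin N) ℂ[X] := Matrix.of fun i j => hh z (d i) (g i) (j : ℕ) with hH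
  have h1 : (∏ j : Fin N, Y ^ (j : ℕ)) * wr f = (∏ i, Y ^ d i) * H.det := by
    unfold wr
    rw [← Matrix.det_mul_row, ← Matrix.det_mul_column]
    congr 1
    ext1 i j
    simp only [Matrix.of_apply, hH]
    rw [hf i]
    exact hh_spec z (d i) (g i) j
  have h2 : H.det.eval z ≠ 0 := by
    have e1 : H.det.eval z = ((evalRingHom z) H.det) := rfl
    rw [e1, RingHom.map_det]
    have e2 : (evalRingHom z).mapMatrix H =
        Matrix.of fun i j : Fin N => (g i).eval z * (Matrix.of fun (i j : Fin N) =>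
          (descPochhammer ℂ (j : ℕ)).eval ((d i : ℕ) : ℂ)) i j := by
      ext1 i j
      simp only [RingHom.mapMatrix_apply, Matrix.map_apply, Matrix.of_apply, hH, coe_evalRingHom]
      exact hh_eval z (d i) (g i) j
    rw [e2, Matrix.det_mul_column]
    refine mul_ne_zero (Finset.prod_ne_zero_iff.mpr (fun i _ => hg i)) ?_
    rw [← Matrix.det_eval_matrixOfPolynomials_eq_det_vandermonde (fun i : Fin N => ((d i : ℕ) : ℂ))
      (fun j : Fin N => descPochhammer ℂ (j : ℕ)) (fun j => descPochhammer_natDegree ℂ (j : ℕ))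
      (fun j => monic_descPochhammer ℂ (j : ℕ))]
    rw [Matrix.det_vandermonde_ne_zero_iff]
    intro i j hij
    have h5 : ((d i : ℕ) : ℂ) = ((d j : ℕ) : ℂ) := hij
    exact hd (Nat.cast_injective h5)
  have hH0 : H.det ≠ 0 := by
    intro h
    rw [h] at h2
    simp at h2
  have hYne : Y ≠ 0 := X_sub_C_ne_zero z
  rw [Finset.prod_pow_eq_pow_sum, Finset.prod_pow_eq_pow_sum] at h1
  have hW : wr f ≠ 0 := by
    intro h
    rw [h, mul_zero] at h1
    exact mul_ne_zero (pow_ne_zero _ hYne) hH0 h1.symm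
  refine ⟨hW, ?_⟩
  have h3 := congrArg (rootMultiplicity z) h1
  rw [rootMultiplicity_mul (mul_ne_zero (pow_ne_zero _ hYne) hW),
    rootMultiplicity_mul (mul_ne_zero (pow_ne_zero _ hYne) hH0), rootMultiplicity_X_sub_C_pow,
    rootMultiplicity_X_sub_C_pow, rootMultiplicity_eq_zero h2] at h3
  omega

end Pool.Agent.H69.OK
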